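import Pool.Agent.Helper80.EC_F.Goals

/-!
# MP_ecc237_nt, PART F: the expansion (F2) of `M_2`
-/

set_option autoImplicit false

open MeasureTheory Filter Topology Set

namespace EC237.PF.PkM2E

/-- The term of `M_2` without the condition. -/
noncomputable def f0 (y : ℝ) (k : ℤ × ℤ) : ℝ :=
  (k.2:ℝ) * y ^ 2 * (10 * (k.1:ℝ) ^ 2 - 2 * (k.2:ℝ) ^ 2 * y ^ 2) / Nn y k ^ 4

/-- The term of `M_2`. -/
noncomputable def f1 (y : ℝ) (k : ℤ × ℤ) : ℝ := if InCl 1 k then f0 y k else 0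

theorem f1_sum (h1 : G_SUMA) {y : ℝ} (hy : 0 < y) : Summable (f1 y) := by
  refine Summable.of_norm_bounded (h1 y hy).2 fun k => ?_
  have hN : 0 ≤ Nn y k ^ 4 := by positivity
  have h0 : |f0 y k| ≤ |(k.2:ℝ)| * y ^ 2 * (10 * (k.1:ℝ) ^ 2 + 2 * (k.2:ℝ) ^ 2 * y ^ 2) /
      Nn y k ^ 4 := by
    unfold f0
    rw [abs_div, abs_of_nonneg hN, abs_mul, abs_mul, abs_of_nonneg (by positivity : (0:ℝ) ≤ y ^ 2)]
    refine div_le_div_of_nonneg_right ?_ hN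
    refine mul_le_mul_of_nonneg_left ?_ (by positivity)
    rw [abs_le]
    have h2 : 0 ≤ 10 * (k.1:ℝ) ^ 2 := by positivity
    have h3 : 0 ≤ 2 * (k.2:ℝ) ^ 2 * y ^ 2 := by positivity
    constructor <;> linarith
  rw [Real.norm_eq_abs]
  unfold f1
  split_ifs
  · exact h0
  · rw [abs_zero]
    exact le_trans (abs_nonneg _) h0

/-- The sum of a row. -/
theorem row (y : ℝ) (n : ℤ) : ∑' m : ℤ, f1 y (n, m) = ∑' j : ℤ, f0 y (n, 6 * j + 1 - 3 * n) := by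
  have hi : Function.Injective (fun j : ℤ => 6 * j + 1 - 3 * n) := by
    intro a b h
    simp only at h
    omega
  have hs : Function.support (fun m : ℤ => f1 y (n, m)) ⊆
      Set.range (fun j : ℤ => 6 * j + 1 - 3 * n) := by
    intro m hm
    rw [Function.mem_support] at hm
    have h2 : InCl 1 (n, m) := by
      by_contra h
      unfold f1 at hm
      exact hm (if_neg h)
    unfold InCl at h2
    simp only at h2
    refine ⟨(m + 3 * n - 1) / 6, ?_⟩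
    simp only
    omega
  rw [← hi.tsum_eq hs]
  refine tsum_congr fun j => ?_
  have h2 : InCl 1 (n, 6 * j + 1 - 3 * n) := by
    unfold InCl
    simp only
    omega
  unfold f1
  rw [if_pos h2]

theorem row_zero {y : ℝ} (hy : 0 < y) : ∑' m : ℤ, f1 y (0, m) = -(2 * Z5 / y ^ 4) := by
  rw [row]
  have h1 : ∀ j : ℤ, f0 y (0, 6 * j + 1 - 3 * 0) = -(2 / y ^ 4) * (1 / (6 * (j:ℝ) + 1) ^ 5) := by
    intro j
    have h2 : (6 * (j:ℝ) + 1) ≠ 0 := by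
      have h3 : (6 * j + 1 : ℤ) ≠ 0 := by omega
      exact_mod_cast h3
    unfold f0 Nn
    push_cast
    simp only [sub_zero]
    field_simp
    ring
  rw [tsum_congr h1, tsum_mul_left]
  unfold Z5
  ring

theorem sin_eq (K n : ℕ) (s : ℤ) (hs : s = 1 ∨ s = -1) :
    Real.sin (2 * Real.pi * ((K:ℝ) + 1) * ((1 - 3 * (s * ((n:ℝ) + 1))) / 6)) =
      (-1) ^ ((K + 1) * (n + 1)) * Real.sin (Real.pi * ((K:ℝ) + 1) / 3) := by
  have h1 : 2 * Real.pi * ((K:ℝ) + 1) * ((1 - 3 * (s * ((n:ℝ) + 1))) / 6) =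
      Real.pi * ((K:ℝ) + 1) / 3 - ((s * ((K + 1) * (n + 1) : ℕ) : ℤ) : ℝ) * Real.pi := by
    push_cast
    ring
  rw [h1, Real.sin_sub_int_mul_pi]
  congr 1
  rcases hs with rfl | rfl
  · rw [one_mul, zpow_natCast]
  · rw [neg_one_mul, zpow_neg, zpow_natCast]
    rcases Nat.even_or_odd ((K + 1) * (n + 1)) with h | h
    · rw [h.neg_one_pow, inv_one]
    · rw [h.neg_one_pow]
      norm_num

/-- The sum of the row `± (n + 1)`. -/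
theorem row_pos (h3 : G_LIPM) {y : ℝ} (hy : 0 < y) (n : ℕ) (s : ℤ) (hs : s = 1 ∨ s = -1) :
    ∑' m : ℤ, f1 y (s * (n + 1), m) = 1 / 2 * ∑' k : ℕ, tE y⁻¹ (k, n) := by
  have hn : (0:ℝ) < (n:ℝ) + 1 := by positivity
  have hs2 : (s:ℝ) ^ 2 = 1 := by
    rcases hs with rfl | rfl <;> norm_num
  have hw : 0 < ((n:ℝ) + 1) / (6 * y) := by positivity
  rw [row]
  have h4 := (h3 (((n:ℝ) + 1) / (6 * y)) ((1 - 3 * (s * ((n:ℝ) + 1))) / 6) hw).2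
  have h5 : ∀ j : ℤ, f0 y (s * (n + 1), 6 * j + 1 - 3 * (s * (n + 1))) = 1 / (15552 * y ^ 4) *
      (((j:ℝ) + ((1 - 3 * (s * ((n:ℝ) + 1))) / 6)) * (20 * (((n:ℝ) + 1) / (6 * y)) ^ 2 -
        4 * ((j:ℝ) + ((1 - 3 * (s * ((n:ℝ) + 1))) / 6)) ^ 2) /
      (((j:ℝ) + ((1 - 3 * (s * ((n:ℝ) + 1))) / 6)) ^ 2 + (((n:ℝ) + 1) / (6 * y)) ^ 2) ^ 4) := by
    intro j
    obtain ⟨x, hx⟩ : ∃ x : ℝ, x = (j:ℝ) + ((1 - 3 * (s * ((n:ℝ) + 1))) / 6) := ⟨_, rfl⟩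
    have hx2 : ((6 * j + 1 - 3 * (s * (n + 1)) : ℤ) : ℝ) = 6 * x := by
      rw [hx]
      push_cast
      ring
    have hn2 : ((s * (n + 1) : ℤ) : ℝ) ^ 2 = ((n:ℝ) + 1) ^ 2 := by
      push_cast
      rw [mul_pow, hs2, one_mul]
    unfold f0 Nn
    simp only
    rw [hx2, hn2, ← hx]
    have h6 : ((n:ℝ) + 1) ^ 2 + (6 * x) ^ 2 * y ^ 2 =
        36 * y ^ 2 * (x ^ 2 + (((n:ℝ) + 1) / (6 * y)) ^ 2) := by
      field_simp
      ring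
    have h7 : 10 * ((n:ℝ) + 1) ^ 2 - 2 * (6 * x) ^ 2 * y ^ 2 =
        18 * y ^ 2 * (20 * (((n:ℝ) + 1) / (6 * y)) ^ 2 - 4 * x ^ 2) := by
      field_simp
      ring
    have h8 : 0 < x ^ 2 + (((n:ℝ) + 1) / (6 * y)) ^ 2 := by positivity
    rw [h6, h7]
    obtain ⟨A, hA⟩ : ∃ A : ℝ, A = x ^ 2 + (((n:ℝ) + 1) / (6 * y)) ^ 2 := ⟨_, rfl⟩
    rw [← hA] at h8 ⊢
    field_simp
    ring
  rw [tsum_congr h5, tsum_mul_left, h4.tsum_eq, ← mul_assoc, ← tsum_mul_left, ← tsum_mul_left]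
  refine tsum_congr fun k => ?_
  rw [sin_eq k n s hs]
  unfold tE sn
  simp only
  have h6 : -(2 * Real.pi * (((n:ℝ) + 1) / (6 * y)) * ((k:ℝ) + 1)) =
      -(Real.pi * ((k:ℝ) + 1) * y⁻¹ / 3 * ((n:ℝ) + 1)) := by
    field_simp
    ring
  rw [h6]
  obtain ⟨E, hE⟩ : ∃ E : ℝ, E = Real.exp (-(Real.pi * ((k:ℝ) + 1) * y⁻¹ / 3 * ((n:ℝ) + 1))) :=
    ⟨_, rfl⟩
  obtain ⟨S, hS⟩ : ∃ S : ℝ, S = (-1) ^ ((k + 1) * (n + 1)) *
    Real.sin (Real.pi * ((k:ℝ) + 1) / 3) := ⟨_, rfl⟩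
  rw [← hE, ← hS]
  field_simp
  ring

theorem thm (h1 : G_SUMA) (h2 : G_SUMT) (h3 : G_LIPM) : G_M2E := by
  intro y hy
  have hs := f1_sum h1 hy
  have hT : Summable (tE y⁻¹) := h2.2.2.1 _ (inv_pos.2 hy)
  have hT' : Summable (fun p : ℕ × ℕ => tE y⁻¹ (p.2, p.1)) := hT.prod_symm
  have hM : M2 y = ∑' k : ℤ × ℤ, f1 y k := rfl
  have hE : EE y⁻¹ = ∑' n : ℕ, ∑' k : ℕ, tE y⁻¹ (k, n) := by
    unfold EE
    rw [← (Equiv.prodComm ℕ ℕ).tsum_eq]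
    exact hT'.tsum_prod
  have hr : Summable (fun n : ℕ => ∑' k : ℕ, tE y⁻¹ (k, n)) := hT'.prod
  rw [hM, hs.tsum_prod]
  have ha : ∀ n : ℕ, ∑' m : ℤ, f1 y (((n:ℤ) + 1), m) = 1 / 2 * ∑' k : ℕ, tE y⁻¹ (k, n) := by
    intro n
    have := row_pos h3 hy n 1 (Or.inl rfl)
    rwa [one_mul] at this
  have hb : ∀ n : ℕ, ∑' m : ℤ, f1 y (-((n:ℤ) + 1), m) = 1 / 2 * ∑' k : ℕ, tE y⁻¹ (k, n) := by
    intro n
    have := row_pos h3 hy n (-1) (Or.inr rfl)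
    rwa [neg_one_mul] at this
  have hc : Summable (fun n : ℕ => ∑' m : ℤ, f1 y (((n:ℤ) + 1), m)) := by
    simp only [ha]
    exact hr.mul_left _
  have hd : Summable (fun n : ℕ => ∑' m : ℤ, f1 y (-((n:ℤ) + 1), m)) := by
    simp only [hb]
    exact hr.mul_left _
  rw [tsum_of_add_one_of_neg_add_one (f := fun n : ℤ => ∑' m : ℤ, f1 y (n, m)) hc hd]
  simp only [ha, hb]
  rw [row_zero hy, tsum_mul_left, hE]
  ring

end EC237.PF.PkM2E
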